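import Pool.Graph.R_seed8.TH261.NP.TopS
import Pool.Graph.R_pool_sql_team_seeded_843ab51a.V11302.MC.Cpt

/-! Approximately polynomial sequences: vector valued and scalar. Orbits of compact operators and of
eigenoperators under `Ad V`. -/

set_option autoImplicit false
set_option linter.unusedSectionVars false

open Finset Filter Topology

namespace Pool.Agent.H258.FSO

open Pool.Agent.Helper188.NCM Pool.Agent.TH261.AB Pool.Agent.TH261.NP
open Pool.Agent.H500R2.PR.TH6
open Pool.Agent.V11302.MC (rk rk_apply approx)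
open scoped InnerProductSpace

section vec

variable {L : Type} [NormedAddCommGroup L] [InnerProductSpace ℂ L]

/-- vector sequences along polynomial orbits in projective representations of abelian groups -/
def IsPV (F : ℕ → L) : Prop :=
  ∃ (K : Type) (_ : NormedAddCommGroup K) (_ : InnerProductSpace ℂ K) (_ : CompleteSpace K)
    (A : Type) (_ : AddCommGroup A) (V : A → (K ≃ₗᵢ[ℂ] K)) (B : A →+ A →+ ℝ)
    (P : ℕ → A) (k : ℕ) (b : A) (f : ℕ → ℝ) (ξ : K) (Y : K →L[ℂ] L),
    BiProj (fun x => (V x).toLinearIsometry) B ∧ Top k P b ∧ IsPF f ∧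
    ∀ n, F n = Y (ee (f n) • V (P n) ξ)

theorem IsPV.phase {F : ℕ → L} (h : IsPV F) {g : ℕ → ℝ} (hg : IsPF g) :
    IsPV fun n => ee (g n) • F n := by
  obtain ⟨K, i1, i2, i3, A, i4, V, B, P, k, b, f, ξ, Y, hV, hP, hf, hF⟩ := h
  exact ⟨K, i1, i2, i3, A, i4, V, B, P, k, b, fun n => g n + f n, ξ, Y, hV, hP, hg.add hf,
    fun n => by
      show ee (g n) • F n = Y (ee (g n + f n) • _)
      rw [hF, ← map_smul, smul_smul, ← ee_add]⟩

theorem IsPV.mobT {F : ℕ → L} (h : IsPV F) {m r : ℕ} (hm : 0 < m) (hr : r < m) :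
    Tendsto (vav fun j => mob (m * j + r) • F j) atTop (𝓝 0) := by
  obtain ⟨K, i1, i2, i3, A, i4, V, B, P, k, b, f, ξ, Y, hV, hP, hf, hF⟩ := h
  obtain ⟨p, hp⟩ := top_newt k P b hP
  have h1 := main_poly (r := r) hV hm hr k p f hf ξ
  have h2 := (Y.continuous.tendsto 0).comp h1
  rw [map_zero] at h2
  refine h2.congr fun N => ?_
  rw [Function.comp_apply, TN, vav, map_smul, map_sum]
  congr 1
  refine Finset.sum_congr rfl fun j _ => ?_
  rw [map_smul, hF, hp]
  rfl

theorem IsPV.functional {F : ℕ → L} (h : IsPV F) (g : L →L[ℂ] ℂ) : IsPS fun n => g (F n) := by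
  obtain ⟨K, i1, i2, i3, A, i4, V, B, P, k, b, f, ξ, Y, hV, hP, hf, hF⟩ := h
  refine ⟨K, i1, i2, i3, A, i4, V, B, P, k, b, f, ξ,
    (InnerProductSpace.toDual ℂ K).symm (g.comp Y), hV, hP, hf, fun n => ?_⟩
  show g (F n) = _
  rw [InnerProductSpace.toDual_symm_apply, hF, map_smul, map_smul, smul_eq_mul]
  rfl

theorem vspan_mob {G : ℕ → L} (hG : G ∈ Submodule.span ℂ {F : ℕ → L | IsPV F}) {m r : ℕ}
    (hm : 0 < m) (hr : r < m) {g : ℕ → ℝ} (hg : IsPF g) :
    Tendsto (vav fun j => mob (m * j + r) • (ee (g j) • G j)) atTop (𝓝 0) := by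
  induction hG using Submodule.span_induction with
  | mem x hx => exact (IsPV.phase hx hg).mobT hm hr
  | zero =>
    have : (vav fun j => mob (m * j + r) • (ee (g j) • (0 : ℕ → L) j)) = fun _ => 0 := by
      funext N
      simp [vav]
    rw [this]
    exact tendsto_const_nhds
  | add x y _ _ hx hy =>
    have := hx.add hy
    rw [add_zero] at this
    refine this.congr fun N => ?_
    rw [vav, vav, vav, ← smul_add, ← Finset.sum_add_distrib]
    congr 1
    exact Finset.sum_congr rfl fun n _ => by rw [Pi.add_apply, smul_add, smul_add]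
  | smul c x _ hx =>
    have := hx.const_smul c
    rw [smul_zero] at this
    refine this.congr fun N => ?_
    rw [vav, vav, smul_comm]
    congr 1
    rw [Finset.smul_sum]
    refine Finset.sum_congr rfl fun n _ => ?_
    rw [Pi.smul_apply, smul_comm c, smul_comm c]

/-- uniform limits of linear combinations of such sequences -/
def ApV (F : ℕ → L) : Prop :=
  ∀ ε : ℝ, 0 < ε → ∃ G ∈ Submodule.span ℂ {F : ℕ → L | IsPV F}, ∀ n, ‖F n - G n‖ ≤ ε

theorem ApV.mobT {F : ℕ → L} (h : ApV F) {m r : ℕ} (hm : 0 < m) (hr : r < m) {g : ℕ → ℝ}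
    (hg : IsPF g) : Tendsto (vav fun j => mob (m * j + r) • (ee (g j) • F j)) atTop (𝓝 0) := by
  rw [Metric.tendsto_atTop]
  intro ε hε
  obtain ⟨G, hG, hFG⟩ := h (ε / 2) (by positivity)
  obtain ⟨N0, hN0⟩ := Metric.tendsto_atTop.1 (vspan_mob hG hm hr hg) (ε / 2) (by positivity)
  refine ⟨N0, fun N hN => ?_⟩
  have h2 := hN0 N hN
  rw [dist_zero_right] at h2 ⊢
  have e : vav (fun j => mob (m * j + r) • (ee (g j) • F j)) N =
      vav (fun j => mob (m * j + r) • (ee (g j) • (F j - G j))) N +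
        vav (fun j => mob (m * j + r) • (ee (g j) • G j)) N := by
    rw [vav, vav, vav, ← smul_add, ← Finset.sum_add_distrib]
    congr 1
    exact Finset.sum_congr rfl fun n _ => by rw [← smul_add, ← smul_add, sub_add_cancel]
  rw [e]
  have h3 := vav_le (a := fun j => mob (m * j + r) • (ee (g j) • (F j - G j)))
    (C := ε / 2) (by positivity) (fun n => by
      rw [norm_smul, norm_smul, norm_ee, one_mul]
      calc _ ≤ 1 * (ε / 2) := by
            gcongr
            · exact norm_mob_le _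
            · exact hFG n
        _ = _ := one_mul _) N
  have h4 := norm_add_le (vav (fun j => mob (m * j + r) • (ee (g j) • (F j - G j))) N)
    (vav (fun j => mob (m * j + r) • (ee (g j) • G j)) N)
  linarith

end vec

/-- uniform limits of linear combinations of scalar sequences -/
def ApS (F : ℕ → ℂ) : Prop :=
  ∀ ε : ℝ, 0 < ε → ∃ G ∈ Submodule.span ℂ {F : ℕ → ℂ | IsPS F}, ∀ n, ‖F n - G n‖ ≤ ε

theorem ApV.functional {L : Type} [NormedAddCommGroup L] [InnerProductSpace ℂ L] {F : ℕ → L}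
    (h : ApV F) (g : L →L[ℂ] ℂ) : ApS fun n => g (F n) := by
  intro ε hε
  obtain ⟨G, hG, hFG⟩ := h (ε / (‖g‖ + 1)) (by positivity)
  refine ⟨fun n => g (G n), ?_, fun n => ?_⟩
  · clear hFG
    induction hG using Submodule.span_induction with
    | mem x hx => exact Submodule.subset_span (IsPV.functional hx g)
    | zero =>
      have : (fun n : ℕ => g ((0 : ℕ → L) n)) = 0 := by funext n; simp
      rw [this]; exact Submodule.zero_mem _
    | add x y _ _ hx hy =>
      have : (fun n : ℕ => g ((x + y) n)) = (fun n => g (x n)) + fun n => g (y n) := by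
        funext n; simp
      rw [this]; exact Submodule.add_mem _ hx hy
    | smul c x _ hx =>
      have : (fun n : ℕ => g ((c • x) n)) = c • fun n => g (x n) := by
        funext n; simp
      rw [this]; exact Submodule.smul_mem _ _ hx
  · rw [← map_sub]
    refine (g.le_opNorm _).trans ?_
    calc _ ≤ ‖g‖ * (ε / (‖g‖ + 1)) := by gcongr; exact hFG n
      _ = ‖g‖ / (‖g‖ + 1) * ε := by ring
      _ ≤ 1 * ε := by
          gcongr
          rw [div_le_one (by positivity)]
          linarith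
      _ = ε := one_mul _

/-- members of the class are bounded -/
theorem IsPS.bdd {F : ℕ → ℂ} (h : IsPS F) : ∃ C : ℝ, ∀ n, ‖F n‖ ≤ C := by
  obtain ⟨K, i1, i2, i3, A, i4, V, B, P, k, b, f, ξ, η, hV, hP, hf, hF⟩ := h
  refine ⟨‖η‖ * ‖ξ‖, fun n => ?_⟩
  rw [hF, norm_mul, norm_ee, one_mul]
  refine (norm_inner_le_norm _ _).trans ?_
  rw [LinearIsometryEquiv.norm_map]

theorem sspan_bdd {G : ℕ → ℂ} (hG : G ∈ Submodule.span ℂ {F : ℕ → ℂ | IsPS F}) :
    ∃ C : ℝ, 0 ≤ C ∧ ∀ n, ‖G n‖ ≤ C := by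
  suffices h : ∃ C : ℝ, ∀ n, ‖G n‖ ≤ C by
    obtain ⟨C, hC⟩ := h
    exact ⟨C, (norm_nonneg _).trans (hC 0), hC⟩
  induction hG using Submodule.span_induction with
  | mem x hx => exact IsPS.bdd hx
  | zero => exact ⟨0, fun n => by simp⟩
  | add x y _ _ hx hy =>
    obtain ⟨C, hC⟩ := hx
    obtain ⟨D, hD⟩ := hy
    exact ⟨C + D, fun n => (norm_add_le _ _).trans (add_le_add (hC n) (hD n))⟩
  | smul c x _ hx =>
    obtain ⟨C, hC⟩ := hx
    refine ⟨‖c‖ * C, fun n => ?_⟩
    rw [Pi.smul_apply, norm_smul]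
    have := hC n
    gcongr

theorem sspan_mul {G H : ℕ → ℂ} (hG : G ∈ Submodule.span ℂ {F : ℕ → ℂ | IsPS F})
    (hH : H ∈ Submodule.span ℂ {F : ℕ → ℂ | IsPS F}) :
    G * H ∈ Submodule.span ℂ {F : ℕ → ℂ | IsPS F} := by
  induction hG using Submodule.span_induction with
  | mem x hx =>
    induction hH using Submodule.span_induction with
    | mem y hy => exact Submodule.subset_span (IsPS.mul hx hy)
    | zero => rw [mul_zero]; exact Submodule.zero_mem _
    | add y z _ _ hy hz => rw [mul_add]; exact Submodule.add_mem _ hy hz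
    | smul c y _ hy => rw [mul_smul_comm]; exact Submodule.smul_mem _ _ hy
  | zero => rw [zero_mul]; exact Submodule.zero_mem _
  | add y z _ _ hy hz => rw [add_mul]; exact Submodule.add_mem _ hy hz
  | smul c y _ hy => rw [smul_mul_assoc]; exact Submodule.smul_mem _ _ hy

theorem sspan_dil {G : ℕ → ℂ} (hG : G ∈ Submodule.span ℂ {F : ℕ → ℂ | IsPS F}) (s t : ℕ) :
    (fun n => G (s * n + t)) ∈ Submodule.span ℂ {F : ℕ → ℂ | IsPS F} := by
  induction hG using Submodule.span_induction with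
  | mem x hx => exact Submodule.subset_span (IsPS.dil hx s t)
  | zero => exact Submodule.zero_mem _
  | add x y _ _ hx hy => exact Submodule.add_mem _ hx hy
  | smul c x _ hx => exact Submodule.smul_mem _ c hx

theorem ApS.dil {F : ℕ → ℂ} (h : ApS F) (s t : ℕ) : ApS fun n => F (s * n + t) := by
  intro ε hε
  obtain ⟨G, hG, hFG⟩ := h ε hε
  exact ⟨_, sspan_dil hG s t, fun n => hFG _⟩

theorem ApS.const (c : ℂ) : ApS fun _ => c := fun ε hε =>
  ⟨_, Submodule.subset_span (IsPS.const c), fun n => by rw [sub_self, norm_zero]; exact hε.le⟩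

theorem ApS.bdd {F : ℕ → ℂ} (h : ApS F) : ∃ C : ℝ, 0 ≤ C ∧ ∀ n, ‖F n‖ ≤ C := by
  obtain ⟨G, hG, hFG⟩ := h 1 one_pos
  obtain ⟨C, hC0, hC⟩ := sspan_bdd hG
  refine ⟨1 + C, by positivity, fun n => ?_⟩
  calc ‖F n‖ = ‖(F n - G n) + G n‖ := by rw [sub_add_cancel]
    _ ≤ ‖F n - G n‖ + ‖G n‖ := norm_add_le _ _
    _ ≤ _ := add_le_add (hFG n) (hC n)

theorem ApS.mul {F F' : ℕ → ℂ} (h : ApS F) (h' : ApS F') : ApS fun n => F n * F' n := by
  intro ε hε
  obtain ⟨C, hC0, hC⟩ := h.bdd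
  obtain ⟨G', hG', hFG'⟩ := h' (ε / 2 / (C + 1)) (by positivity)
  obtain ⟨C', hC'0, hC'⟩ := sspan_bdd hG'
  obtain ⟨G, hG, hFG⟩ := h (ε / 2 / (C' + 1)) (by positivity)
  refine ⟨G * G', sspan_mul hG hG', fun n => ?_⟩
  have e : F n * F' n - (G * G') n = F n * (F' n - G' n) + (F n - G n) * G' n := by
    rw [Pi.mul_apply]; ring
  rw [e]
  refine (norm_add_le _ _).trans ?_
  rw [norm_mul, norm_mul]
  have h1 : ‖F n‖ * ‖F' n - G' n‖ ≤ ε / 2 := by
    calc _ ≤ C * (ε / 2 / (C + 1)) := by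
          gcongr
          · exact hC n
          · exact hFG' n
      _ = C / (C + 1) * (ε / 2) := by ring
      _ ≤ 1 * (ε / 2) := by
          gcongr
          rw [div_le_one (by positivity)]
          linarith
      _ = _ := one_mul _
  have h2 : ‖F n - G n‖ * ‖G' n‖ ≤ ε / 2 := by
    calc _ ≤ (ε / 2 / (C' + 1)) * C' := by
          gcongr
          · exact hFG n
          · exact hC' n
      _ = C' / (C' + 1) * (ε / 2) := by ring
      _ ≤ 1 * (ε / 2) := by
          gcongr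
          rw [div_le_one (by positivity)]
          linarith
      _ = _ := one_mul _
  linarith

theorem sspan_mob {G : ℕ → ℂ} (hG : G ∈ Submodule.span ℂ {F : ℕ → ℂ | IsPS F}) {m r : ℕ}
    (hm : 0 < m) (hr : r < m) {g : ℕ → ℝ} (hg : IsPF g) :
    Tendsto (vav fun j => mob (m * j + r) * (ee (g j) * G j)) atTop (𝓝 0) := by
  induction hG using Submodule.span_induction with
  | mem x hx => exact (IsPS.phase hx hg).mob hm hr
  | zero =>
    have : (vav fun j => mob (m * j + r) * (ee (g j) * (0 : ℕ → ℂ) j)) = fun _ => 0 := by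
      funext N
      simp [vav]
    rw [this]
    exact tendsto_const_nhds
  | add x y _ _ hx hy =>
    refine (vav_add' hx hy).congr fun N => ?_
    rw [vav, vav]
    congr 1
    exact Finset.sum_congr rfl fun n _ => by rw [Pi.add_apply, mul_add, mul_add]
  | smul c x _ hx =>
    refine (vav_mul' c hx).congr fun N => ?_
    rw [vav, vav]
    congr 1
    refine Finset.sum_congr rfl fun n _ => ?_
    rw [Pi.smul_apply, smul_eq_mul]
    ring

theorem ApS.mobT {F : ℕ → ℂ} (h : ApS F) {m r : ℕ} (hm : 0 < m) (hr : r < m) {g : ℕ → ℝ}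
    (hg : IsPF g) : Tendsto (vav fun j => mob (m * j + r) * (ee (g j) * F j)) atTop (𝓝 0) := by
  refine vav_approx fun ε hε => ?_
  obtain ⟨G, hG, hFG⟩ := h ε hε
  refine ⟨_, fun n => ?_, sspan_mob hG hm hr hg⟩
  rw [← mul_sub, ← mul_sub, norm_mul, norm_mul, norm_ee, one_mul]
  calc _ ≤ 1 * ε := by
        gcongr
        · exact norm_mob_le _
        · exact hFG n
    _ = _ := one_mul _

section ops

variable {K : Type} [NormedAddCommGroup K] [InnerProductSpace ℂ K] [CompleteSpace K]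

/-- the slice map `x ⊗ y ↦ ⟨b, y⟩ x` -/
theorem exists_slice (b : K) : ∃ Y : KK K K →L[ℂ] K, ∀ x y : K, Y (tt x y) = ⟪b, y⟫_ℂ • x := by
  let Z : K →L[ℂ] KK K K := LinearMap.mkContinuous
    { toFun := fun x => tt x b
      map_add' := fun x y => tt_add_left x y b
      map_smul' := fun c x => tt_smul_left c x b } ‖b‖ (fun x => by
        show ‖tt x b‖ ≤ _
        rw [norm_tt, mul_comm])
  have hZ : ∀ x, Z x = tt x b := fun x => rfl
  refine ⟨ContinuousLinearMap.adjoint Z, fun x y => ?_⟩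
  refine ext_inner_left ℂ fun z => ?_
  rw [ContinuousLinearMap.adjoint_inner_right, hZ, inner_tt, inner_smul_right, mul_comm]

/-- the isometry of a unitary operator -/
noncomputable def isoV (V : unitary (K →L[ℂ] K)) : K ≃ₗᵢ[ℂ] K := Unitary.linearIsometryEquiv V

theorem isoV_pow (V : unitary (K →L[ℂ] K)) (n : ℕ) (x : K) :
    ((V : K →L[ℂ] K) ^ n) x = ((isoV V) ^ (n : ℤ)) x := by
  rw [isoV, zpow_natCast, ← map_pow]
  rfl

theorem isoV_star_pow (V : unitary (K →L[ℂ] K)) (n : ℕ) (x : K) :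
    ((star (V : K →L[ℂ] K)) ^ n) x = ((isoV V) ^ (-(n : ℤ))) x := by
  rw [zpow_neg, ← inv_zpow, isoV, ← map_inv, zpow_natCast, ← map_pow]
  rfl

theorem zpow_comp (W : K ≃ₗᵢ[ℂ] K) (a b : ℤ) (x : K) : (W ^ a) ((W ^ b) x) = (W ^ (a + b)) x := by
  rw [zpow_add]
  rfl

theorem orbit_rk (V : unitary (K →L[ℂ] K)) (x y ξ : K) :
    IsPV fun n : ℕ => ((V : K →L[ℂ] K) ^ n * rk x y * (star (V : K →L[ℂ] K)) ^ n) ξ := by
  obtain ⟨Y, hY⟩ := exists_slice y
  refine ⟨KK K K, inferInstance, inferInstance, inferInstance, ℤ, inferInstance,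
    fun n => tV ((isoV V) ^ n) ((isoV V) ^ (-n)), 0, fun n => (n : ℤ), 1, 1, fun _ => 0,
    tt x ξ, Y, ?_, ?_, IsPF.const 0, fun n => ?_⟩
  · intro a b z
    have h := tV_mul ((isoV V) ^ a) ((isoV V) ^ b) ((isoV V) ^ (a + b)) ((isoV V) ^ (-a))
      ((isoV V) ^ (-b)) ((isoV V) ^ (-(a + b))) (θ1 := 0) (θ2 := 0)
      (fun x => by rw [ee_zero, one_smul, zpow_comp]) (fun x => by
        rw [ee_zero, one_smul, zpow_comp, neg_add]) z
    rw [add_zero] at h
    exact h
  · intro n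
    show ((n + 1 : ℕ) : ℤ) - (n : ℤ) = 1
    push_cast
    ring
  · simp only
    rw [ee_zero, one_smul, tV_tt, hY, ← isoV_pow, ← isoV_star_pow]
    show ((V : K →L[ℂ] K) ^ n) (rk x y (((star (V : K →L[ℂ] K)) ^ n) ξ)) = _
    rw [rk_apply, map_smul]

theorem conj_pow {V : unitary (K →L[ℂ] K)} {T : K →L[ℂ] K} {l : ℂ}
    (h : (V : K →L[ℂ] K) * T * star (V : K →L[ℂ] K) = l • T) (n : ℕ) :
    (V : K →L[ℂ] K) ^ n * T * (star (V : K →L[ℂ] K)) ^ n = l ^ n • T := by
  induction n with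
  | zero => simp
  | succ n ih =>
    have e : (V : K →L[ℂ] K) ^ (n + 1) * T * (star (V : K →L[ℂ] K)) ^ (n + 1) =
        (V : K →L[ℂ] K) * ((V : K →L[ℂ] K) ^ n * T * (star (V : K →L[ℂ] K)) ^ n) *
          star (V : K →L[ℂ] K) := by
      rw [pow_succ' (V : K →L[ℂ] K), pow_succ (star (V : K →L[ℂ] K))]
      simp only [mul_assoc]
    rw [e, ih, mul_smul_comm, smul_mul_assoc, h, smul_smul, pow_succ]

theorem conj_norm (V : unitary (K →L[ℂ] K)) (T : K →L[ℂ] K) :
    ‖(V : K →L[ℂ] K) * T * star (V : K →L[ℂ] K)‖ = ‖T‖ := by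
  rw [show star (V : K →L[ℂ] K) = ((star V : unitary (K →L[ℂ] K)) : K →L[ℂ] K) from rfl,
    CStarRing.norm_mul_coe_unitary, CStarRing.norm_coe_unitary_mul]

theorem orbit_eig {V : unitary (K →L[ℂ] K)} {T : K →L[ℂ] K} {l : ℂ}
    (h : (V : K →L[ℂ] K) * T * star (V : K →L[ℂ] K) = l • T) (ξ : K) :
    IsPV fun n : ℕ => ((V : K →L[ℂ] K) ^ n * T * (star (V : K →L[ℂ] K)) ^ n) ξ := by
  have key : ∀ (T : K →L[ℂ] K) (θ : ℝ), (V : K →L[ℂ] K) * T * star (V : K →L[ℂ] K) = ee θ • T →
      IsPV fun n : ℕ => ((V : K →L[ℂ] K) ^ n * T * (star (V : K →L[ℂ] K)) ^ n) ξ := by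
    intro T θ hT
    refine ⟨K, inferInstance, inferInstance, inferInstance, PUnit, inferInstance, fun _ => 1, 0,
      fun _ => 0, 0, 0, fun n => n * θ, ξ, T, ?_, fun n => rfl,
      IsPF.id.mul (IsPF.const θ), fun n => ?_⟩
    · intro a b x
      simp [ee_zero]
    · simp only
      rw [conj_pow hT, mul_comm (n : ℝ) θ, ee_nat_mul]
      simp
  by_cases hT : T = 0
  · subst hT
    exact key 0 0 (by simp)
  · have hl : ‖l‖ = 1 := by
      have h1 := conj_norm V T
      rw [h, norm_smul] at h1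
      have h2 : ‖T‖ ≠ 0 := norm_ne_zero_iff.2 hT
      exact mul_right_cancel₀ h2 (by rw [h1, one_mul])
    obtain ⟨θ, rfl⟩ := exists_ee hl
    exact key T θ h

end ops

end Pool.Agent.H258.FSO
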