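import Pool.Agent.H258.FSO.Core

/-! Möbius orthogonality for the elements whose images in the irreducible representations are compact
up to eigenoperators, unital case. -/

set_option autoImplicit false
set_option linter.unusedSectionVars false

open Finset Filter Topology

namespace Pool.Agent.H258.FSO

open Pool.Agent.Helper188.NCM Pool.Agent.TH261.AB Pool.Agent.TH261.NP Pool.Agent.W661.Nrm
open Pool.Agent.H500R2.PR.TH6
open Pool.Agent.V11302.MC (rk rk_apply approx)
open scoped InnerProductSpace ComplexOrder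

theorem IsPV.dil {L : Type} [NormedAddCommGroup L] [InnerProductSpace ℂ L] {F : ℕ → L}
    (h : IsPV F) (s t : ℕ) : IsPV fun n => F (s * n + t) := by
  obtain ⟨K, i1, i2, i3, A, i4, V, B, P, k, b, f, ξ, Y, hV, hP, hf, hF⟩ := h
  exact ⟨K, i1, i2, i3, A, i4, V, B, fun n => P (s * n + t), k, s ^ k • b, fun n => f (s * n + t),
    ξ, Y, hV, Top.dilate (hP.shift t) s, pf_dil hf s t, fun n => hF _⟩

theorem ApV.dil {L : Type} [NormedAddCommGroup L] [InnerProductSpace ℂ L] {F : ℕ → L}
    (h : ApV F) (s t : ℕ) : ApV fun n => F (s * n + t) := by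
  intro ε hε
  obtain ⟨G, hG, hFG⟩ := h ε hε
  refine ⟨fun n => G (s * n + t), ?_, fun n => hFG _⟩
  clear hFG
  induction hG using Submodule.span_induction with
  | mem x hx => exact Submodule.subset_span (IsPV.dil hx s t)
  | zero => exact Submodule.zero_mem _
  | add x y _ _ hx hy => exact Submodule.add_mem _ hx hy
  | smul c x _ hx => exact Submodule.smul_mem _ c hx

section ops

variable {K : Type} [NormedAddCommGroup K] [InnerProductSpace ℂ K] [CompleteSpace K]

/-- the closed linear span of the compact operators and of the eigenoperators of `Ad V` -/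
noncomputable def Sm (V : unitary (K →L[ℂ] K)) : Submodule ℂ (K →L[ℂ] K) :=
  (Submodule.span ℂ {T : K →L[ℂ] K | IsCompactOperator T ∨
    ∃ l : ℂ, (V : K →L[ℂ] K) * T * star (V : K →L[ℂ] K) = l • T}).topologicalClosure

theorem conj_pow_norm (V : unitary (K →L[ℂ] K)) (T : K →L[ℂ] K) (n : ℕ) (ξ : K) :
    ‖((V : K →L[ℂ] K) ^ n * T * (star (V : K →L[ℂ] K)) ^ n) ξ‖ ≤ ‖T‖ * ‖ξ‖ := by
  refine (ContinuousLinearMap.le_opNorm _ _).trans ?_
  have : ‖(V : K →L[ℂ] K) ^ n * T * (star (V : K →L[ℂ] K)) ^ n‖ = ‖T‖ := by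
    rw [show (star (V : K →L[ℂ] K)) ^ n = ((star V ^ n : unitary (K →L[ℂ] K)) : K →L[ℂ] K) from rfl,
      show (V : K →L[ℂ] K) ^ n = ((V ^ n : unitary (K →L[ℂ] K)) : K →L[ℂ] K) from rfl,
      CStarRing.norm_mul_coe_unitary, CStarRing.norm_coe_unitary_mul]
  rw [this]

/-- approximation of the operator -/
theorem apv_closure (V : unitary (K →L[ℂ] K)) {S : Set (K →L[ℂ] K)} (ξ : K)
    (hS : ∀ T ∈ S, ApV fun n : ℕ => ((V : K →L[ℂ] K) ^ n * T * (star (V : K →L[ℂ] K)) ^ n) ξ)
    {T : K →L[ℂ] K} (hT : T ∈ closure S) :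
    ApV fun n : ℕ => ((V : K →L[ℂ] K) ^ n * T * (star (V : K →L[ℂ] K)) ^ n) ξ := by
  intro ε hε
  obtain ⟨T', hT', hd⟩ := Metric.mem_closure_iff.1 hT (ε / 2 / (‖ξ‖ + 1)) (by positivity)
  obtain ⟨G, hG, hFG⟩ := hS T' hT' (ε / 2) (by positivity)
  refine ⟨G, hG, fun n => ?_⟩
  have e : ((V : K →L[ℂ] K) ^ n * T * (star (V : K →L[ℂ] K)) ^ n) ξ - G n =
      ((V : K →L[ℂ] K) ^ n * (T - T') * (star (V : K →L[ℂ] K)) ^ n) ξ +
      (((V : K →L[ℂ] K) ^ n * T' * (star (V : K →L[ℂ] K)) ^ n) ξ - G n) := by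
    rw [mul_sub, sub_mul, sub_apply]
    abel
  rw [e]
  refine (norm_add_le _ _).trans ?_
  have h1 := conj_pow_norm V (T - T') n ξ
  have h2 : ‖T - T'‖ * ‖ξ‖ ≤ ε / 2 := by
    rw [dist_eq_norm] at hd
    calc _ ≤ (ε / 2 / (‖ξ‖ + 1)) * ‖ξ‖ := by gcongr
      _ = ‖ξ‖ / (‖ξ‖ + 1) * (ε / 2) := by ring
      _ ≤ 1 * (ε / 2) := by
          gcongr
          rw [div_le_one (by positivity)]
          linarith
      _ = _ := one_mul _
  have h3 := hFG n
  linarith

theorem apv_add {L : Type} [NormedAddCommGroup L] [InnerProductSpace ℂ L] {F G : ℕ → L}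
    (hF : ApV F) (hG : ApV G) : ApV fun n => F n + G n := by
  intro ε hε
  obtain ⟨F', hF', h1⟩ := hF (ε / 2) (by positivity)
  obtain ⟨G', hG', h2⟩ := hG (ε / 2) (by positivity)
  refine ⟨F' + G', Submodule.add_mem _ hF' hG', fun n => ?_⟩
  rw [Pi.add_apply, add_sub_add_comm]
  refine (norm_add_le _ _).trans ?_
  have := h1 n
  have := h2 n
  linarith

theorem apv_smul {L : Type} [NormedAddCommGroup L] [InnerProductSpace ℂ L] {F : ℕ → L} (c : ℂ)
    (hF : ApV F) : ApV fun n => c • F n := by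
  intro ε hε
  obtain ⟨F', hF', h1⟩ := hF (ε / (‖c‖ + 1)) (by positivity)
  refine ⟨c • F', Submodule.smul_mem _ c hF', fun n => ?_⟩
  rw [Pi.smul_apply, ← smul_sub, norm_smul]
  calc _ ≤ ‖c‖ * (ε / (‖c‖ + 1)) := by gcongr; exact h1 n
    _ = ‖c‖ / (‖c‖ + 1) * ε := by ring
    _ ≤ 1 * ε := by
        gcongr
        rw [div_le_one (by positivity)]
        linarith
    _ = ε := one_mul _

theorem apv_of_isPV {L : Type} [NormedAddCommGroup L] [InnerProductSpace ℂ L] {F : ℕ → L}
    (h : IsPV F) : ApV F := fun ε hε =>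
  ⟨F, Submodule.subset_span h, fun n => by rw [sub_self, norm_zero]; exact hε.le⟩

theorem apv_zero {L : Type} [NormedAddCommGroup L] [InnerProductSpace ℂ L] :
    ApV fun _ => (0 : L) := fun ε hε =>
  ⟨0, Submodule.zero_mem _, fun n => by simp [hε.le]⟩

theorem apv_sum_rk (V : unitary (K →L[ℂ] K)) (ξ : K) {ι : Type} (s : Finset ι) (e w : ι → K) :
    ApV fun n : ℕ => ((V : K →L[ℂ] K) ^ n * (∑ i ∈ s, rk (e i) (w i)) *
      (star (V : K →L[ℂ] K)) ^ n) ξ := by
  classical
  induction s using Finset.induction_on with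
  | empty => simpa using apv_zero
  | insert i s hi ih =>
    have h := apv_add (apv_of_isPV (orbit_rk V (e i) (w i) ξ)) ih
    refine (iff_of_eq (congrArg ApV ?_)).1 h
    funext n
    rw [Finset.sum_insert hi, mul_add, add_mul, add_apply]

theorem orbit_small (V : unitary (K →L[ℂ] K)) {T : K →L[ℂ] K} (hT : T ∈ Sm V) (ξ : K) :
    ApV fun n : ℕ => ((V : K →L[ℂ] K) ^ n * T * (star (V : K →L[ℂ] K)) ^ n) ξ := by
  refine apv_closure V (S := (Submodule.span ℂ {T : K →L[ℂ] K | IsCompactOperator T ∨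
    ∃ l : ℂ, (V : K →L[ℂ] K) * T * star (V : K →L[ℂ] K) = l • T} : Set (K →L[ℂ] K))) ξ ?_ hT
  intro T hT
  have hT' : T ∈ Submodule.span ℂ {T : K →L[ℂ] K | IsCompactOperator T ∨
    ∃ l : ℂ, (V : K →L[ℂ] K) * T * star (V : K →L[ℂ] K) = l • T} := hT
  clear hT
  induction hT' using Submodule.span_induction with
  | mem x hx =>
    rcases hx with hx | ⟨l, hl⟩
    · refine apv_closure V (S := {T | ∃ (m : ℕ) (e : Fin m → K) (w : Fin m → K),
        T = ∑ i, rk (e i) (w i)}) ξ ?_ ?_
      · rintro _ ⟨m, e, w, rfl⟩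
        exact apv_sum_rk V ξ Finset.univ e w
      · refine Metric.mem_closure_iff.2 fun ε hε => ?_
        obtain ⟨m, e, w, h⟩ := approx x hx (ε / 2) (by positivity)
        refine ⟨_, ⟨m, e, w, rfl⟩, ?_⟩
        rw [dist_eq_norm]
        linarith
    · exact apv_of_isPV (orbit_eig hl ξ)
  | zero => simpa using apv_zero
  | add x y _ _ hx hy =>
    refine (iff_of_eq (congrArg ApV ?_)).1 (apv_add hx hy)
    funext n
    rw [mul_add, add_mul, add_apply]
  | smul c x _ hx =>
    refine (iff_of_eq (congrArg ApV ?_)).1 (apv_smul c hx)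
    funext n
    rw [mul_smul_comm, smul_mul_assoc, smul_apply]

end ops

variable {U : Type} [CStarAlgebra U] {α : U →⋆ₐ[ℂ] U}

/-- the orbit of `x` in the representation `π` is periodic up to a unitary, with compact operators up
to eigenoperators -/
def PerU (α : U →⋆ₐ[ℂ] U) (x : U) {K : Type} [NormedAddCommGroup K] [InnerProductSpace ℂ K]
    [CompleteSpace K] (π : U →⋆ₐ[ℂ] (K →L[ℂ] K)) : Prop :=
  ∃ k : ℕ, 0 < k ∧ ∃ V : unitary (K →L[ℂ] K), ∀ j < k, π ((α^[j]) x) ∈ Sm V ∧
    ∀ n : ℕ, π ((α^[k * n + j]) x) =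
      (V : K →L[ℂ] K) ^ n * π ((α^[j]) x) * (star (V : K →L[ℂ] K)) ^ n

/-- the orbit of `x` in the representation `π` tends to zero in mean -/
def NulU (α : U →⋆ₐ[ℂ] U) (x : U) {K : Type} [NormedAddCommGroup K] [InnerProductSpace ℂ K]
    [CompleteSpace K] (π : U →⋆ₐ[ℂ] (K →L[ℂ] K)) : Prop :=
  Tendsto (fun N : ℕ => (N : ℝ)⁻¹ * ∑ n ∈ range N, ‖π ((α^[n]) x)‖) atTop (𝓝 0)

/-- the elements treated -/
def ModU (α : U →⋆ₐ[ℂ] U) (x : U) : Prop :=
  ∀ (K : Type) [NormedAddCommGroup K] [InnerProductSpace ℂ K] [CompleteSpace K]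
    (π : U →⋆ₐ[ℂ] (K →L[ℂ] K)), Irr π → PerU α x π ∨ NulU α x π

theorem PerU.apv {x : U} {K : Type} [NormedAddCommGroup K] [InnerProductSpace ℂ K]
    [CompleteSpace K] {π : U →⋆ₐ[ℂ] (K →L[ℂ] K)} (h : PerU α x π) :
    ∃ k : ℕ, 0 < k ∧ ∀ (r : ℕ) (ξ : K), ApV fun n => π ((α^[k * n + r]) x) ξ := by
  obtain ⟨k, hk, V, hV⟩ := h
  have h1 : ∀ r < k, ∀ ξ : K, ApV fun n => π ((α^[k * n + r]) x) ξ := by
    intro r hr ξ
    refine (iff_of_eq (congrArg ApV ?_)).1 (orbit_small V (hV r hr).1 ξ)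
    funext n
    rw [(hV r hr).2]
  refine ⟨k, hk, fun r ξ => ?_⟩
  refine (iff_of_eq (congrArg ApV ?_)).1 ((h1 (r % k) (Nat.mod_lt _ hk) ξ).dil 1 (r / k))
  funext n
  have e : k * (1 * n + r / k) + r % k = k * n + r := by
    have := Nat.div_add_mod r k
    rw [one_mul, mul_add, add_assoc, this]
  simp only [e]

/-- comparison with a sequence which tends to zero in mean -/
theorem vav_of_null {E : Type*} [NormedAddCommGroup E] [NormedSpace ℂ E] {a : ℕ → E} {b : ℕ → ℝ}
    {C : ℝ} (hab : ∀ n, ‖a n‖ ≤ C * b n)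
    (hb : Tendsto (fun N : ℕ => (N : ℝ)⁻¹ * ∑ n ∈ range N, b n) atTop (𝓝 0)) :
    Tendsto (vav a) atTop (𝓝 0) := by
  rw [tendsto_zero_iff_norm_tendsto_zero]
  have h1 := hb.const_mul C
  rw [mul_zero] at h1
  refine squeeze_zero (fun N => norm_nonneg _) (fun N => ?_) h1
  rw [vav_norm, div_eq_inv_mul, mul_left_comm]
  gcongr
  refine (norm_sum_le _ _).trans ?_
  rw [Finset.mul_sum]
  exact Finset.sum_le_sum fun n _ => hab n

/-- reduction to irreducible representations, arbitrary weights -/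
theorem of_irr_weight {c : ℕ → ℂ} (hc : ∀ n, ‖c n‖ ≤ 1) {x : U}
    (h : ∀ (K : Type) [NormedAddCommGroup K] [InnerProductSpace ℂ K] [CompleteSpace K]
      (π : U →⋆ₐ[ℂ] (K →L[ℂ] K)), Irr π → ∀ ξ : K,
      Tendsto (vav fun n => c n • π ((α^[n]) x) ξ) atTop (𝓝 0))
    (K : Type) [NormedAddCommGroup K] [InnerProductSpace ℂ K] [CompleteSpace K]
    (π : U →⋆ₐ[ℂ] (K →L[ℂ] K)) (ξ : K) :
    Tendsto (vav fun n => c n • π ((α^[n]) x) ξ) atTop (𝓝 0) := by
  let _ : PartialOrder U := CStarAlgebra.spectralOrder U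
  have _ : StarOrderedRing U := CStarAlgebra.spectralOrderedRing U
  set S : ℕ → U := vav fun n => c n • (α^[n]) x with hS
  have hSn : ∀ N, ‖S N‖ ≤ ‖x‖ := by
    intro N
    refine vav_le (norm_nonneg _) (fun n => ?_) N
    rw [norm_smul]
    calc _ ≤ 1 * ‖x‖ := by
          gcongr
          · exact hc n
          · exact iter_norm α n x
      _ = _ := one_mul _
  have hb : ∀ N, ‖star (S N) * S N‖ ≤ ‖x‖ * ‖x‖ := by
    intro N
    rw [CStarRing.norm_star_mul_self]
    have := hSn N
    gcongr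
  have hvav : ∀ (K' : Type) [NormedAddCommGroup K'] [InnerProductSpace ℂ K'] [CompleteSpace K']
      (π' : U →⋆ₐ[ℂ] (K' →L[ℂ] K')) (η : K') N,
      π' (S N) η = vav (fun n => c n • π' ((α^[n]) x) η) N := by
    intro K' _ _ _ π' η N
    rw [hS, vav, vav, map_smul, map_sum, smul_apply, _root_.sum_apply]
    congr 1
    exact Finset.sum_congr rfl fun n _ => by rw [map_smul, smul_apply]
  have hsq : ∀ (K' : Type) [NormedAddCommGroup K'] [InnerProductSpace ℂ K'] [CompleteSpace K']
      (π' : U →⋆ₐ[ℂ] (K' →L[ℂ] K')) (η : K') (a : U),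
      ⟪η, π' (star a * a) η⟫_ℂ = ((‖π' a η‖ : ℂ)) ^ 2 := by
    intro K' _ _ _ π' η a
    rw [map_mul, map_star, mul_apply_eq_comp, ContinuousLinearMap.star_eq_adjoint,
      ContinuousLinearMap.adjoint_inner_right, inner_self_eq_norm_sq_to_K]
    rfl
  have h1 : ∀ φ : U →ₚ[ℂ] ℂ, Pure φ →
      Tendsto (fun N => φ (star (S N) * S N)) atTop (𝓝 0) := by
    intro φ hφ
    have h2 := h φ.GNS φ.gnsStarAlgHom (irr_of_pure hφ) (om φ)
    rw [tendsto_zero_iff_norm_tendsto_zero] at h2
    have h3 := (Complex.continuous_ofReal.tendsto 0).comp h2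
    rw [Complex.ofReal_zero] at h3
    have h4 := h3.pow 2
    rw [zero_pow two_ne_zero] at h4
    refine h4.congr fun N => ?_
    rw [← gns_inner, hsq, hvav]
    rfl
  have h5 := rain hb h1 (vec π ξ)
  have h6 : Tendsto (fun N => ‖π (S N) ξ‖ ^ 2) atTop (𝓝 0) := by
    have h7 := (Complex.continuous_re.tendsto 0).comp h5
    rw [Complex.zero_re] at h7
    refine h7.congr fun N => ?_
    rw [Function.comp_apply, vec_apply, hsq, ← Complex.ofReal_pow, Complex.ofReal_re]
  rw [tendsto_zero_iff_norm_tendsto_zero]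
  have h8 := h6.sqrt
  rw [Real.sqrt_zero] at h8
  refine h8.congr fun N => ?_
  rw [Real.sqrt_sq (norm_nonneg _), hvav]

theorem pf_res {f : ℕ → ℝ} (hf : IsPF f) (m r : ℕ) : IsPF fun n => f (m * n + r) := pf_dil hf m r

/-- **strong convergence, elements** -/
theorem ModU.strong {x : U} (h : ModU α x) {f : ℕ → ℝ} (hf : IsPF f)
    (K : Type) [NormedAddCommGroup K] [InnerProductSpace ℂ K] [CompleteSpace K]
    (π : U →⋆ₐ[ℂ] (K →L[ℂ] K)) (ξ : K) :
    Tendsto (vav fun n => (mob n * ee (f n)) • π ((α^[n]) x) ξ) atTop (𝓝 0) := by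
  refine of_irr_weight (fun n => ?_) ?_ K π ξ
  · rw [norm_mul, norm_ee, mul_one]
    exact norm_mob_le _
  intro K _ _ _ π hπ ξ
  rcases h K π hπ with hper | hnul
  swap
  · refine vav_of_null (C := ‖ξ‖) (fun n => ?_) hnul
    rw [norm_smul, norm_mul, norm_ee, mul_one]
    calc _ ≤ 1 * (‖π ((α^[n]) x)‖ * ‖ξ‖) := by
          gcongr
          · exact norm_mob_le _
          · exact ContinuousLinearMap.le_opNorm _ _
      _ = _ := by ring
  obtain ⟨k, hk, h1⟩ := hper.apv
  refine vav_of_residues (C := ‖x‖ * ‖ξ‖) (by positivity) (fun n => ?_) hk fun r hr => ?_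
  · rw [norm_smul, norm_mul, norm_ee, mul_one]
    calc _ ≤ 1 * (‖x‖ * ‖ξ‖) := by
          gcongr
          · exact norm_mob_le _
          · refine (ContinuousLinearMap.le_opNorm _ _).trans ?_
            gcongr
            exact (NonUnitalStarAlgHom.norm_apply_le π _).trans (iter_norm α n _)
      _ = _ := one_mul _
  · refine ((h1 r ξ).mobT hk hr (pf_res hf k r)).congr fun N => ?_
    rw [vav, vav]
    congr 1
    exact Finset.sum_congr rfl fun n _ => by rw [mul_smul]

/-- closure under limits, for vector valued averages -/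
theorem strong_closure {c : ℕ → ℂ} (hc : ∀ n, ‖c n‖ ≤ 1) {S : Set U}
    (K : Type) [NormedAddCommGroup K] [InnerProductSpace ℂ K] [CompleteSpace K]
    (π : U →⋆ₐ[ℂ] (K →L[ℂ] K)) (ξ : K)
    (hS : ∀ x ∈ S, Tendsto (vav fun n => c n • π ((α^[n]) x) ξ) atTop (𝓝 0)) {x : U}
    (hx : x ∈ (Submodule.span ℂ S).topologicalClosure) :
    Tendsto (vav fun n => c n • π ((α^[n]) x) ξ) atTop (𝓝 0) := by
  have h0 : ∀ x ∈ Submodule.span ℂ S,
      Tendsto (vav fun n => c n • π ((α^[n]) x) ξ) atTop (𝓝 0) := by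
    intro x hx
    induction hx using Submodule.span_induction with
    | mem x hx => exact hS x hx
    | zero =>
      have h0 : ∀ n, (α^[n]) (0 : U) = 0 := fun n => by
        have := iter_smul α n 0 0
        rwa [zero_smul, zero_smul] at this
      have : (vav fun n => c n • π ((α^[n]) (0 : U)) ξ) = fun _ => 0 := by
        funext N
        simp [vav, h0]
      rw [this]
      exact tendsto_const_nhds
    | add x y _ _ hx hy =>
      have := hx.add hy
      rw [add_zero] at this
      refine this.congr fun N => ?_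
      rw [vav, vav, vav, ← smul_add, ← Finset.sum_add_distrib]
      congr 1
      exact Finset.sum_congr rfl fun n _ => by rw [TH261.AB.iter_add, map_add, add_apply, smul_add]
    | smul d x _ hx =>
      have := hx.const_smul d
      rw [smul_zero] at this
      refine this.congr fun N => ?_
      rw [vav, vav, smul_comm]
      congr 1
      rw [Finset.smul_sum]
      refine Finset.sum_congr rfl fun n _ => ?_
      rw [iter_smul, map_smul, smul_apply, smul_comm]
  rw [Metric.tendsto_atTop]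
  intro ε hε
  obtain ⟨y, hy, hd⟩ := Metric.mem_closure_iff.1 (show x ∈ closure _ from hx)
    (ε / 2 / (‖ξ‖ + 1)) (by positivity)
  obtain ⟨N0, hN0⟩ := Metric.tendsto_atTop.1 (h0 y hy) (ε / 2) (by positivity)
  refine ⟨N0, fun N hN => ?_⟩
  have h2 := hN0 N hN
  rw [dist_zero_right] at h2 ⊢
  have e : vav (fun n => c n • π ((α^[n]) x) ξ) N = vav (fun n => c n • π ((α^[n]) (x - y)) ξ) N +
      vav (fun n => c n • π ((α^[n]) y) ξ) N := by
    rw [vav, vav, vav, ← smul_add, ← Finset.sum_add_distrib]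
    congr 1
    exact Finset.sum_congr rfl fun n _ => by
      rw [TH261.AB.iter_sub, map_sub, sub_apply, ← smul_add, sub_add_cancel]
  rw [e]
  have h3 := vav_le (a := fun n => c n • π ((α^[n]) (x - y)) ξ) (C := ε / 2) (by positivity)
    (fun n => by
      rw [norm_smul]
      rw [dist_eq_norm] at hd
      calc _ ≤ 1 * (‖x - y‖ * ‖ξ‖) := by
            gcongr
            · exact hc n
            · refine (ContinuousLinearMap.le_opNorm _ _).trans ?_
              gcongr
              exact (NonUnitalStarAlgHom.norm_apply_le π _).trans (iter_norm α n _)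
        _ ≤ 1 * ((ε / 2 / (‖ξ‖ + 1)) * ‖ξ‖) := by gcongr
        _ = ‖ξ‖ / (‖ξ‖ + 1) * (ε / 2) := by ring
        _ ≤ 1 * (ε / 2) := by
            gcongr
            rw [div_le_one (by positivity)]
            linarith
        _ = _ := one_mul _) N
  have h4 := norm_add_le (vav (fun n => c n • π ((α^[n]) (x - y)) ξ) N)
    (vav (fun n => c n • π ((α^[n]) y) ξ) N)
  linarith

/-- the scalar sequences at pure states -/
theorem PerU.aps [PartialOrder U] [StarOrderedRing U] {x : U} {φ : U →ₚ[ℂ] ℂ}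
    (h : PerU α x φ.gnsStarAlgHom) :
    ∃ k : ℕ, 0 < k ∧ ∀ r : ℕ, ApS fun n => φ ((α^[k * n + r]) x) := by
  obtain ⟨k, hk, h1⟩ := h.apv
  refine ⟨k, hk, fun r => ?_⟩
  have h2 := (h1 r (om φ)).functional (innerSL ℂ (om φ))
  refine (iff_of_eq (congrArg ApS ?_)).1 h2
  funext n
  rw [innerSL_apply_apply, gns_inner]

/-- products at pure states -/
theorem prod_aps [PartialOrder U] [StarOrderedRing U] (L : List ((U →ₚ[ℂ] ℂ) × U))
    (hL : ∀ p ∈ L, PerU α p.2 p.1.gnsStarAlgHom) :
    ∃ M : ℕ, 0 < M ∧ ∀ r, ApS fun n => (L.map fun p => p.1 ((α^[M * n + r]) p.2)).prod := by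
  induction L with
  | nil => exact ⟨1, one_pos, fun r => by simpa using ApS.const 1⟩
  | cons p L ih =>
    obtain ⟨M, hM, h1⟩ := ih fun q hq => hL q (List.mem_cons_of_mem _ hq)
    obtain ⟨m, hm, h2⟩ := (hL p List.mem_cons_self).aps
    refine ⟨m * M, Nat.mul_pos hm hM, fun r => ?_⟩
    have h4 := ((h2 r).dil M 0).mul ((h1 r).dil m 0)
    refine (iff_of_eq (congrArg ApS ?_)).1 h4
    funext n
    rw [List.map_cons, List.prod_cons]
    have e1 : m * (M * n + 0) + r = m * M * n + r := by ring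
    have e2 : M * (m * n + 0) + r = m * M * n + r := by ring
    rw [e1, e2]

/-- a bounded list times a factor -/
theorem prod_le_factor [PartialOrder U] [StarOrderedRing U] (L : List ((U →ₚ[ℂ] ℂ) × U))
    (hL : ∀ p ∈ L, Pure p.1) : (∃ C : ℝ, 0 ≤ C ∧ ∀ n, ‖(L.map fun p => p.1 ((α^[n]) p.2)).prod‖ ≤ C) ∧
      ∀ q ∈ L, ∃ C : ℝ, 0 ≤ C ∧
        ∀ n, ‖(L.map fun p => p.1 ((α^[n]) p.2)).prod‖ ≤ C * ‖q.1 ((α^[n]) q.2)‖ := by
  induction L with
  | nil => exact ⟨⟨1, zero_le_one, fun n => by simp⟩, fun q hq => absurd hq List.not_mem_nil⟩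
  | cons p L ih =>
    obtain ⟨⟨C, hC0, hC⟩, h2⟩ := ih fun q hq => hL q (List.mem_cons_of_mem _ hq)
    have hp : ∀ n, ‖p.1 ((α^[n]) p.2)‖ ≤ 4 * ‖p.2‖ := by
      intro n
      refine (norm_pos_le p.1 _).trans ?_
      rw [(hL p List.mem_cons_self).one, norm_one, one_mul]
      have := iter_norm α n p.2
      gcongr
    refine ⟨⟨4 * ‖p.2‖ * C, by positivity, fun n => ?_⟩, fun q hq => ?_⟩
    · rw [List.map_cons, List.prod_cons, norm_mul]
      have h3 := hp n
      have h4 := hC n
      gcongr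
    · rcases List.mem_cons.1 hq with rfl | hq
      · refine ⟨C, hC0, fun n => ?_⟩
        rw [List.map_cons, List.prod_cons, norm_mul, mul_comm C]
        have := hC n
        gcongr
      · obtain ⟨D, hD0, hD⟩ := h2 q hq
        refine ⟨4 * ‖p.2‖ * D, by positivity, fun n => ?_⟩
        rw [List.map_cons, List.prod_cons, norm_mul, mul_assoc]
        have h3 := hp n
        have h4 := hD n
        gcongr

/-- the products of the values at pure states are orthogonal to the Möbius function -/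
theorem mob_pure' [PartialOrder U] [StarOrderedRing U] (L : List ((U →ₚ[ℂ] ℂ) × U))
    (hL : ∀ p ∈ L, Pure p.1 ∧ ModU α p.2) {f : ℕ → ℝ} (hf : IsPF f) :
    Tendsto (vav fun n => mob n * (ee (f n) * (L.map fun p => p.1 ((α^[n]) p.2)).prod))
      atTop (𝓝 0) := by
  obtain ⟨⟨C, hC0, hC⟩, hfac⟩ := prod_le_factor (α := α) L fun p hp => (hL p hp).1
  by_cases hall : ∀ p ∈ L, PerU α p.2 p.1.gnsStarAlgHom
  · obtain ⟨M, hM, h1⟩ := prod_aps L hall
    refine vav_of_residues hC0 (fun n => ?_) hM fun r hr => ?_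
    · rw [norm_mul, norm_mul, norm_ee, one_mul]
      calc _ ≤ 1 * C := by
            gcongr
            · exact norm_mob_le _
            · exact hC n
        _ = C := one_mul C
    · exact (h1 r).mobT hM hr (pf_res hf M r)
  · push Not at hall
    obtain ⟨q, hq, hnot⟩ := hall
    have hnul : NulU α q.2 q.1.gnsStarAlgHom :=
      ((hL q hq).2 q.1.GNS q.1.gnsStarAlgHom (irr_of_pure (hL q hq).1)).resolve_left hnot
    obtain ⟨D, hD0, hD⟩ := hfac q hq
    refine vav_of_null (C := D * (‖om q.1‖ * ‖om q.1‖)) (fun n => ?_) hnul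
    rw [norm_mul, norm_mul, norm_ee, one_mul]
    calc _ ≤ 1 * (D * ‖q.1 ((α^[n]) q.2)‖) := by
          gcongr
          · exact norm_mob_le _
          · exact hD n
      _ ≤ 1 * (D * (‖om q.1‖ * (‖q.1.gnsStarAlgHom ((α^[n]) q.2)‖ * ‖om q.1‖))) := by
          gcongr
          rw [← gns_inner]
          refine (norm_inner_le_norm _ _).trans ?_
          gcongr
          exact ContinuousLinearMap.le_opNorm _ _
      _ = _ := by ring

/-- **products of functionals** -/
theorem multiU (L : List ((U →L[ℂ] ℂ) × U))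
    (hL : ∀ p ∈ L, p.2 ∈ (Submodule.span ℂ {x : U | ModU α x}).topologicalClosure)
    {f : ℕ → ℝ} (hf : IsPF f) :
    Tendsto (vav fun n => mob n * (ee (f n) * (L.map fun p => p.1 ((α^[n]) p.2)).prod))
      atTop (𝓝 0) := by
  let _ : PartialOrder U := CStarAlgebra.spectralOrder U
  have _ : StarOrderedRing U := CStarAlgebra.spectralOrderedRing U
  have hb1 : ∀ (ρ : U →L[ℂ] ℂ) (a : U) (n : ℕ), ‖ρ ((α^[n]) a)‖ ≤ ‖ρ‖ * ‖a‖ := by
    intro ρ a n
    refine (ρ.le_opNorm _).trans ?_
    have := iter_norm α n a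
    gcongr
  have hb1' : ∀ L : List ((U →L[ℂ] ℂ) × U), ∃ C : ℝ, 0 ≤ C ∧
      ∀ n, ‖(L.map fun p => p.1 ((α^[n]) p.2)).prod‖ ≤ C := by
    intro L
    induction L with
    | nil => exact ⟨1, zero_le_one, fun n => by simp⟩
    | cons p L ih =>
      obtain ⟨C, hC0, hC⟩ := ih
      refine ⟨‖p.1‖ * ‖p.2‖ * C, by positivity, fun n => ?_⟩
      rw [List.map_cons, List.prod_cons, norm_mul]
      have h2 := hb1 p.1 p.2 n
      have h3 := hC n
      gcongr
  have hb2 : ∀ L : List ((U →ₚ[ℂ] ℂ) × U), (∀ p ∈ L, Pure p.1) →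
      ∃ C : ℝ, 0 ≤ C ∧ ∀ n, ‖(L.map fun p => p.1 ((α^[n]) p.2)).prod‖ ≤ C := by
    intro L
    induction L with
    | nil => intro _; exact ⟨1, zero_le_one, fun n => by simp⟩
    | cons p L ih =>
      intro hL
      obtain ⟨C, hC0, hC⟩ := ih fun q hq => hL q (List.mem_cons_of_mem _ hq)
      refine ⟨4 * ‖p.2‖ * C, by positivity, fun n => ?_⟩
      rw [List.map_cons, List.prod_cons, norm_mul]
      have h2 : ‖p.1 ((α^[n]) p.2)‖ ≤ 4 * ‖p.2‖ := by
        refine (norm_pos_le p.1 _).trans ?_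
        rw [(hL p List.mem_cons_self).one, norm_one, one_mul]
        have := iter_norm α n p.2
        gcongr
      have h3 := hC n
      gcongr
  have key : ∀ (L : List ((U →L[ℂ] ℂ) × U)) (L2 : List ((U →ₚ[ℂ] ℂ) × U)),
      (∀ p ∈ L, p.2 ∈ (Submodule.span ℂ {x : U | ModU α x}).topologicalClosure) →
      (∀ p ∈ L2, Pure p.1 ∧ ModU α p.2) →
      Tendsto (vav fun n => mob n * (ee (f n) * ((L.map fun p => p.1 ((α^[n]) p.2)).prod *
        (L2.map fun p => p.1 ((α^[n]) p.2)).prod))) atTop (𝓝 0) := by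
    intro L
    induction L with
    | nil =>
      intro L2 _ hL2
      refine (mob_pure' L2 hL2 hf).congr fun N => ?_
      simp
    | cons p L ih =>
      intro L2 hL hL2
      obtain ⟨ρ, a0⟩ := p
      have ha0 : a0 ∈ (Submodule.span ℂ {x : U | ModU α x}).topologicalClosure :=
        hL (ρ, a0) List.mem_cons_self
      obtain ⟨C, hC0, hC⟩ := hb1' L
      obtain ⟨C2, hC20, hC2⟩ := hb2 L2 fun p hp => (hL2 p hp).1
      set F : ℕ → ℂ := fun n => (L.map fun p => p.1 ((α^[n]) p.2)).prod *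
        (L2.map fun p => p.1 ((α^[n]) p.2)).prod with hF
      have hFb : ∀ n, ‖F n‖ ≤ C * C2 := by
        intro n
        rw [hF]
        simp only
        rw [norm_mul]
        have h1 := hC n
        have h2 := hC2 n
        gcongr
      have hwb : ∀ n, ‖mob n * (ee (f n) * F n)‖ ≤ C * C2 := by
        intro n
        rw [norm_mul, norm_mul, norm_ee, one_mul]
        calc _ ≤ 1 * (C * C2) := by
              gcongr
              · exact norm_mob_le _
              · exact hFb n
          _ = _ := one_mul _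
      -- all functionals, the elements of the class
      have h1 : ∀ (x : U), ModU α x → Tendsto (vav fun n =>
          (mob n * (ee (f n) * F n)) * ρ ((α^[n]) x)) atTop (𝓝 0) := by
        intro x hx
        refine one_step hwb x (fun φ hφ => ?_) ρ
        refine (ih ((φ, x) :: L2) (fun q hq => hL q (List.mem_cons_of_mem _ hq))
          (fun q hq => ?_)).congr fun N => ?_
        · rcases List.mem_cons.1 hq with rfl | hq
          · exact ⟨hφ, hx⟩
          · exact hL2 q hq
        · rw [vav, vav]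
          congr 1
          refine Finset.sum_congr rfl fun n _ => ?_
          rw [List.map_cons, List.prod_cons, hF]
          simp only
          ring
      have hspan : ∀ a ∈ Submodule.span ℂ {x : U | ModU α x}, Tendsto (vav fun n =>
          (mob n * (ee (f n) * F n)) * ρ ((α^[n]) a)) atTop (𝓝 0) := by
        intro a ha
        induction ha using Submodule.span_induction with
        | mem x hx => exact h1 x hx
        | zero =>
          have h0 : ∀ n, (α^[n]) (0 : U) = 0 := fun n => by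
            have := iter_smul α n 0 0
            rwa [zero_smul, zero_smul] at this
          have : (vav fun n => (mob n * (ee (f n) * F n)) * ρ ((α^[n]) (0 : U))) = fun _ => 0 := by
            funext N
            simp [vav, h0]
          rw [this]
          exact tendsto_const_nhds
        | add x y _ _ hx hy =>
          refine (vav_add' hx hy).congr fun N => ?_
          rw [vav, vav]
          congr 1
          exact Finset.sum_congr rfl fun n _ => by rw [TH261.AB.iter_add, map_add, mul_add]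
        | smul c x _ hx =>
          refine (vav_mul' c hx).congr fun N => ?_
          rw [vav, vav]
          congr 1
          exact Finset.sum_congr rfl fun n _ => by rw [iter_smul, map_smul, smul_eq_mul]; ring
      have hfin : Tendsto (vav fun n =>
          (mob n * (ee (f n) * F n)) * ρ ((α^[n]) a0)) atTop (𝓝 0) := by
        refine vav_approx fun ε hε => ?_
        obtain ⟨b, hb, hab⟩ := Metric.mem_closure_iff.1 (show a0 ∈ closure _ from ha0)
          (ε / (C * C2 * ‖ρ‖ + 1)) (by positivity)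
        refine ⟨_, fun n => ?_, hspan b hb⟩
        rw [← mul_sub, ← map_sub, ← TH261.AB.iter_sub, norm_mul]
        have h2 := hwb n
        have h3 := hb1 ρ (a0 - b) n
        rw [dist_eq_norm] at hab
        calc _ ≤ (C * C2) * (‖ρ‖ * ‖a0 - b‖) := by gcongr
          _ ≤ (C * C2) * (‖ρ‖ * (ε / (C * C2 * ‖ρ‖ + 1))) := by gcongr
          _ = (C * C2 * ‖ρ‖) / (C * C2 * ‖ρ‖ + 1) * ε := by ring
          _ ≤ 1 * ε := by
              gcongr
              rw [div_le_one (by positivity)]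
              linarith
          _ = ε := one_mul _
      refine hfin.congr fun N => ?_
      rw [vav, vav]
      congr 1
      refine Finset.sum_congr rfl fun n _ => ?_
      rw [List.map_cons, List.prod_cons, hF]
      simp only
      ring
  refine (key L [] hL (fun p hp => absurd hp List.not_mem_nil)).congr fun N => ?_
  rw [vav, vav]
  congr 1
  refine Finset.sum_congr rfl fun n _ => ?_
  rw [List.map_nil, List.prod_nil, mul_one]

end Pool.Agent.H258.FSO
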